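import Mathlib.RingTheory.Artinian.Module
import Mathlib.RingTheory.Jacobson.Semiprimary
import Mathlib.RingTheory.SimpleModule.Basic
import Mathlib.LinearAlgebra.FiniteDimensional.Basic
import Mathlib.Algebra.Algebra.Rat
import Mathlib.Tactic

/-!
# Finite-dimensional algebras with a non-degenerate trace
-/

set_option autoImplicit false

namespace Pool.Agent.TH829.Inj

/-- A finite-dimensional algebra with a non-degenerate linear form which vanishes on the nilpotent
elements is semisimple. -/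
lemma isSemisimpleRing {A : Type*} [Ring A] [Algebra ℚ A] [FiniteDimensional ℚ A] (t : A →ₗ[ℚ] ℚ)
    (hn : ∀ x, IsNilpotent x → t x = 0) (hnd : ∀ x, (∀ y, t (x * y) = 0) → x = 0) :
    IsSemisimpleRing A := by
  have : IsArtinianRing A := isArtinian_of_tower ℚ inferInstance
  rw [IsArtinianRing.isSemisimpleRing_iff_jacobson, eq_bot_iff]
  intro x hx
  rw [Ideal.mem_bot]
  apply hnd
  intro y
  apply hn
  have h1 : x * y ∈ Ring.jacobson A := Ideal.mul_mem_right _ _ hx
  obtain ⟨n, hn'⟩ := IsSemiprimaryRing.isNilpotent (R := A)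
  refine ⟨n, ?_⟩
  have h2 : (x * y) ^ n ∈ Ring.jacobson A ^ n := Ideal.pow_mem_pow h1 n
  rw [hn'] at h2
  exact h2

/-- Left ideals of semisimple rings are generated by idempotents. -/
lemma exists_idem {A : Type*} [Ring A] [IsSemisimpleRing A] (L : Ideal A) :
    ∃ e ∈ L, ∀ x ∈ L, x * e = x := by
  obtain ⟨L', hL⟩ := exists_isCompl L
  have h1 : (1 : A) ∈ L ⊔ L' := by
    rw [hL.sup_eq_top]
    exact Submodule.mem_top
  obtain ⟨e, he, e', he', hee⟩ := Submodule.mem_sup.1 h1
  refine ⟨e, he, fun x hx => ?_⟩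
  have h2 : x - x * e = x * e' := by
    rw [sub_eq_iff_eq_add, ← mul_add, add_comm, hee, mul_one]
  have h3 : x * e' ∈ L := by
    rw [← h2]
    exact L.sub_mem hx (L.mul_mem_left x he)
  have h4 : x * e' ∈ L ⊓ L' := ⟨h3, L'.mul_mem_left x he'⟩
  rw [hL.inf_eq_bot, Submodule.mem_bot] at h4
  rw [h4, sub_eq_zero] at h2
  exact h2.symm

end Pool.Agent.TH829.Inj
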