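import Pool.Agent.TH829.Rig.Loc

/-!
# Splittings are local on the prime ideals
-/

set_option autoImplicit false

open CategoryTheory MonoidalCategory Limits BraidedCategory

universe u v

namespace Pool.Agent.TH829.Inj

open Pool.Agent.TH90.AB Pool.Agent.TH90.Kim
open Pool.Agent.TH829.Rig
open Pool.Agent.TH829.Ten (Family IsTensorIdeal IsPrimeIdeal IsMult Avoids)

set_option linter.unusedSectionVars false

noncomputable section

variable {𝒜 : Type u} [Category.{v} 𝒜] [MonoidalCategory 𝒜] [SymmetricCategory 𝒜]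
  [Preadditive 𝒜] [MonoidalPreadditive 𝒜] [Linear ℚ 𝒜] [MonoidalLinear ℚ 𝒜]

/-- The tensor products of members of a class of endomorphisms. -/
inductive Gen {M : 𝒜} (S : (M ⟶ M) → Prop) : ∀ X Y : 𝒜, (X ⟶ Y) → Prop
  | base (z : M ⟶ M) (hz : S z) : Gen S M M z
  | tensor {X Y Z W : 𝒜} (f : X ⟶ Y) (g : Z ⟶ W) (hf : Gen S X Y f) (hg : Gen S Z W g) :
      Gen S (X ⊗ Z) (Y ⊗ W) (f ⊗ₘ g)

lemma isMult_gen {M : 𝒜} {S : (M ⟶ M) → Prop} (hne : ∃ z, S z) : IsMult (Gen S) where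
  nonempty := by
    obtain ⟨z, hz⟩ := hne
    exact ⟨M, M, z, Gen.base z hz⟩
  mul hf hg _ _ h := ⟨_, _, _, Gen.tensor _ _ hf hg, h⟩

variable [hdual : ∀ X : 𝒜, HasRightDual X]

lemma contr_base {I : Family 𝒜} (hI : IsTensorIdeal I) {M : 𝒜} (y z : M ⟶ M)
    (h : y ⊗ₘ z ∈ I (M ⊗ M) (M ⊗ M)) : y ≫ z ∈ I M M := by
  have e1 : ptr ((y ⊗ₘ z) ≫ (β_ M M).hom) = y ≫ z := by
    rw [MonoidalCategory.tensorHom_def, Category.assoc, braiding_naturality_right, ptr_left,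
      ptr_right, ptr_braiding, Category.id_comp]
  rw [← e1]
  exact IsTensorIdeal.ptr_mem hI (hI.comp_right _ h)

lemma Gen.contr {M : 𝒜} {S : (M ⟶ M) → Prop} (hmul : ∀ z w, S z → S w → S (z ≫ w)) {X Y : 𝒜}
    {f : X ⟶ Y} (hf : Gen S X Y f) : ∀ {I : Family 𝒜}, IsTensorIdeal I → ∀ z : M ⟶ M,
      f ⊗ₘ z ∈ I (X ⊗ M) (Y ⊗ M) → ∃ w, S w ∧ w ≫ z ∈ I M M := by
  induction hf with
  | base y hy =>
    intro I hI z h
    exact ⟨y, hy, contr_base hI y z h⟩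
  | @tensor X Y Z W f g hf hg ihf ihg =>
    intro I hI z h
    have h1 : f ⊗ₘ (g ⊗ₘ z) ∈ I (X ⊗ (Z ⊗ M)) (Y ⊗ (W ⊗ M)) := by
      have e : f ⊗ₘ (g ⊗ₘ z) = (α_ X Z M).inv ≫ ((f ⊗ₘ g) ⊗ₘ z) ≫ (α_ Y W M).hom := by
        rw [associator_naturality, Iso.inv_hom_id_assoc]
      rw [e]
      exact hI.comp_left _ (hI.comp_right _ h)
    obtain ⟨w₂, hw₂, h2⟩ := ihg (hI.colon f) z h1
    obtain ⟨w₁, hw₁, h3⟩ := ihf hI _ h2
    exact ⟨w₁ ≫ w₂, hmul _ _ hw₁ hw₂, by rwa [Category.assoc]⟩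

/-- A multiplicatively closed class of endomorphisms of `M` which meets each prime tensor ideal
containing `I` meets `I`. -/
theorem mem_of_prime {M : 𝒜} {S : (M ⟶ M) → Prop} (hmul : ∀ z w, S z → S w → S (z ≫ w))
    (hne : ∃ z, S z) {I : Family 𝒜} (hI : IsTensorIdeal I)
    (h : ∀ P : Family 𝒜, IsPrimeIdeal P → I ≤ P → ∃ z, S z ∧ z ∈ P M M) :
    ∃ z, S z ∧ z ∈ I M M := by
  by_contra hcon
  push Not at hcon
  have hav : Avoids (Gen S) I := by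
    intro X Y f hf h2
    have h3 : f ⊗ₘ 𝟙 M ∈ I (X ⊗ M) (Y ⊗ M) := by
      rw [tensorHom_id]
      exact hI.whisker_right M h2
    obtain ⟨w, hw, h4⟩ := hf.contr hmul hI _ h3
    rw [Category.comp_id] at h4
    exact hcon w hw h4
  obtain ⟨P, hP, hIP, hPa⟩ := Ten.exists_prime_avoids (isMult_gen hne) hI hav
  obtain ⟨z, hz, hzP⟩ := h P hP hIP
  exact hPa _ _ _ (Gen.base z hz) hzP

/-- The identity of `M` is congruent modulo `I` to a finite sum of compositions `f ≫ g`, where `f`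
belongs to the class `𝓕` of morphisms with source `M`. -/
def SplitMod (I : Family 𝒜) (M : 𝒜) (𝓕 : ∀ S : 𝒜, (M ⟶ S) → Prop) : Prop :=
  ∃ (ι : Type) (_ : Fintype ι) (S : ι → 𝒜) (f : ∀ i, M ⟶ S i) (g : ∀ i, S i ⟶ M),
    (∀ i, 𝓕 (S i) (f i)) ∧ 𝟙 M - ∑ i, f i ≫ g i ∈ I M M

theorem splitMod_iff {I : Family 𝒜} (hI : IsTensorIdeal I) (M : 𝒜)
    (𝓕 : ∀ S : 𝒜, (M ⟶ S) → Prop) : SplitMod I M 𝓕 ↔
      ∀ P : Family 𝒜, IsPrimeIdeal P → I ≤ P → SplitMod P M 𝓕 := by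
  constructor
  · rintro ⟨ι, hι, S, f, g, h1, h2⟩ P _ hIP
    exact ⟨ι, hι, S, f, g, h1, hIP _ _ h2⟩
  intro h
  let Sy : (M ⟶ M) → Prop := fun z => ∃ (ι : Type) (_ : Fintype ι) (S : ι → 𝒜)
    (f : ∀ i, M ⟶ S i) (g : ∀ i, S i ⟶ M), (∀ i, 𝓕 (S i) (f i)) ∧ z = 𝟙 M - ∑ i, f i ≫ g i
  have hmul : ∀ z w, Sy z → Sy w → Sy (z ≫ w) := by
    rintro z w ⟨ι, hι, S, f, g, h1, hz⟩ ⟨κ, hκ, S', f', g', h1', hw⟩
    refine ⟨ι ⊕ κ, inferInstance, Sum.elim S S', fun i => match i with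
      | Sum.inl i => f i
      | Sum.inr j => f' j, fun i => match i with
      | Sum.inl i => g i ≫ w
      | Sum.inr j => g' j, ?_, ?_⟩
    · rintro (i | j)
      · exact h1 i
      · exact h1' j
    · rw [Fintype.sum_sum_type]
      have e1 : ∑ i, f i ≫ g i ≫ w = (∑ i, f i ≫ g i) ≫ w := by
        rw [Preadditive.sum_comp]
        simp only [Category.assoc]
      change z ≫ w = 𝟙 M - (∑ i, f i ≫ g i ≫ w + ∑ j, f' j ≫ g' j)
      rw [e1]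
      nth_rewrite 1 [hz]
      rw [Preadditive.sub_comp, Category.id_comp]
      nth_rewrite 1 [hw]
      abel
  obtain ⟨z, ⟨ι, hι, S, f, g, h1, rfl⟩, h2⟩ := mem_of_prime (S := Sy) hmul
    ⟨𝟙 M, Empty, inferInstance, fun e => e.elim, fun e => e.elim, fun e => e.elim,
      fun e => e.elim, by simp⟩ hI (fun P hP hIP => by
      obtain ⟨ι, hι, S, f, g, h1, h2⟩ := h P hP hIP
      exact ⟨_, ⟨ι, hι, S, f, g, h1, rfl⟩, h2⟩)
  exact ⟨ι, hι, S, f, g, h1, h2⟩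

/-- A morphism splits if it splits modulo each prime tensor ideal. -/
theorem split_iff {M N : 𝒜} (f : M ⟶ N) : (∃ g : N ⟶ M, f ≫ g = 𝟙 M) ↔
    ∀ P : Family 𝒜, IsPrimeIdeal P → ∃ g : N ⟶ M, f ≫ g - 𝟙 M ∈ P M M := by
  constructor
  · rintro ⟨g, hg⟩ P _
    exact ⟨g, by rw [hg, sub_self]; exact Submodule.zero_mem _⟩
  intro h
  obtain ⟨z, ⟨g, rfl⟩, h2⟩ := mem_of_prime (M := M) (S := fun z => ∃ g : N ⟶ M, z = 𝟙 M - f ≫ g)
    (by
      rintro z w ⟨g, rfl⟩ ⟨g', rfl⟩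
      refine ⟨g + g' - g ≫ f ≫ g', ?_⟩
      simp only [Preadditive.sub_comp, Preadditive.comp_sub, Preadditive.comp_add,
        Category.id_comp, Category.comp_id, Category.assoc]
      abel) ⟨𝟙 M, 0, by rw [comp_zero, sub_zero]⟩ Ten.isTensorIdeal_bot (fun P hP _ => by
      obtain ⟨g, hg⟩ := h P hP
      refine ⟨_, ⟨g, rfl⟩, ?_⟩
      rw [← neg_sub]
      exact Submodule.neg_mem _ hg)
  rw [Submodule.mem_bot, sub_eq_zero] at h2
  exact ⟨g, h2.symm⟩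

end

end Pool.Agent.TH829.Inj
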