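import Pool.Agent.TH829.Inj.Real

/-!
# Splitting of morphisms with injective realisation
-/

set_option autoImplicit false

open CategoryTheory MonoidalCategory Limits BraidedCategory TensorProduct

universe u v w

namespace Pool.Agent.TH829.Inj

open Pool.Agent.TH90.AB Pool.Agent.TH90.Kim
open Pool.Agent.TH829.Rig
open Pool.Agent.TH829.Ten (Family IsTensorIdeal)

set_option linter.unusedSectionVars false

noncomputable section

variable {𝒜 : Type u} [Category.{v} 𝒜] [MonoidalCategory 𝒜] [SymmetricCategory 𝒜]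
  [Preadditive 𝒜] [MonoidalPreadditive 𝒜] [Linear ℚ 𝒜] [MonoidalLinear ℚ 𝒜]
  {K : Type w} [Field K] [CharZero K] (F : Realisation 𝒜 K)

/-- Numerical and homological equivalence agree for the morphisms `𝟙 ⟶ E`. -/
def DFor (E : 𝒜) : Prop := ∀ u : 𝟙_ 𝒜 ⟶ E, (∀ v : E ⟶ 𝟙_ 𝒜, u ≫ v = 0) → F.Inv u

variable [hdual : ∀ X : 𝒜, HasRightDual X]

/-- The morphisms `N ⊗ M^∨ ⟶ 𝟙` come from morphisms `N ⟶ M`. -/
lemma exists_mate {M N : 𝒜} (v : N ⊗ Mᘁ ⟶ 𝟙_ 𝒜) : ∃ g : N ⟶ M, v = g ▷ Mᘁ ≫ ev M := by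
  let _ : ExactPairing Mᘁ M := exactPairing_swap M Mᘁ
  let g' : N ⟶ 𝟙_ 𝒜 ⊗ M := tensorRightHomEquiv N Mᘁ M (𝟙_ 𝒜) v
  have hv : v = (tensorRightHomEquiv N Mᘁ M (𝟙_ 𝒜)).symm g' := by
    rw [Equiv.symm_apply_apply]
  refine ⟨g' ≫ (λ_ M).hom, ?_⟩
  rw [hv]
  have e1 : (tensorRightHomEquiv N Mᘁ M (𝟙_ 𝒜)).symm g' =
      g' ▷ Mᘁ ≫ (α_ (𝟙_ 𝒜) M Mᘁ).hom ≫ 𝟙_ 𝒜 ◁ ev M ≫ (ρ_ (𝟙_ 𝒜)).hom := rfl
  rw [e1, comp_whiskerRight, Category.assoc]
  congr 1
  have e2 : (λ_ M).hom ▷ Mᘁ = (α_ (𝟙_ 𝒜) M Mᘁ).hom ≫ (λ_ (M ⊗ Mᘁ)).hom := by monoidal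
  rw [e2, Category.assoc, ← leftUnitor_naturality, unitors_equal]

lemma inv_of_nm {M N : 𝒜} {f : M ⟶ N} (h : F.Inv (nm f)) : F.Inv f := by
  have key : f = (λ_ M).inv ≫ nm f ▷ M ≫ (α_ N Mᘁ M).hom ≫ N ◁ ε_ M Mᘁ ≫ (ρ_ N).hom := by
    simp only [nm, comp_whiskerRight, Category.assoc]
    have e1 : (f ▷ Mᘁ) ▷ M ≫ (α_ N Mᘁ M).hom ≫ N ◁ ε_ M Mᘁ =
        (α_ M Mᘁ M).hom ≫ M ◁ ε_ M Mᘁ ≫ f ▷ 𝟙_ 𝒜 := by
      rw [whisker_exchange, associator_naturality_left_assoc]
    rw [reassoc_of% e1, ExactPairing.evaluation_coevaluation_assoc]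
    simp
  have hI := isTensorIdeal_kerF F
  rw [← mem_kerF, key]
  exact hI.comp_left _ (hI.comp_right _ (hI.whisker_right _ h))

/-- The trace pairing between `Hom(M, N)` and `Hom(N, M)` is non-degenerate. -/
lemma inv_of_tr {M N : 𝒜} (hD : DFor F (N ⊗ Mᘁ)) {f : M ⟶ N}
    (h : ∀ g : N ⟶ M, tr (f ≫ g) = 0) : F.Inv f := by
  apply inv_of_nm
  apply hD
  intro v
  obtain ⟨g, rfl⟩ := exists_mate v
  have h1 := h g
  rw [tr_eq, comp_whiskerRight, Category.assoc] at h1
  rw [nm, Category.assoc]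
  exact h1

section ring

variable {F} (hS : Scalars 𝒜) {M : 𝒜} (hD : DFor F (M ⊗ Mᘁ))

/-- The trace on the endomorphisms modulo homological equivalence. -/
def tF (hS : Scalars 𝒜) (M : 𝒜) : RP (isTensorIdeal_kerF F) M →ₗ[ℚ] ℚ :=
  trP hS (isTensorIdeal_kerF F) (unit_notMem_kerF F) M

lemma tF_mk (a : End M) : tF (F := F) hS M (mk (isTensorIdeal_kerF F) M a) = trL hS M a := rfl

include hD in
lemma tF_nondeg (x : RP (isTensorIdeal_kerF F) M) (h : ∀ y, tF hS M (x * y) = 0) : x = 0 := by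
  obtain ⟨x, rfl⟩ := Ideal.Quotient.mk_surjective x
  apply mk_eq_zero.2
  apply inv_of_tr F hD
  intro g
  have h1 := h (mk (isTensorIdeal_kerF F) M g)
  rw [← map_mul, tF_mk, trL_comm] at h1
  have h2 := trL_spec hS ((show End M from g) * x)
  change tr ((show M ⟶ M from x) ≫ g) = _ at h2
  rw [h2]
  have h3 : trL hS M ((show End M from g) * x) = 0 := h1
  rw [h3, zero_smul]

lemma tF_nilpotent (x : RP (isTensorIdeal_kerF F) M) (h : IsNilpotent x) : tF hS M x = 0 := by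
  obtain ⟨x, rfl⟩ := Ideal.Quotient.mk_surjective x
  obtain ⟨n, hn⟩ := h
  rw [← map_pow] at hn
  have h1 : F.Inv (show M ⟶ M from x ^ n) := mk_eq_zero.1 hn
  have h2 : F.toEnd M x ^ n = 0 := by
    rw [← map_pow]
    exact LinearMap.ext h1
  have h3 : Commute (F.toEnd M x) (F.par M : Module.End K (F.V M)) := by
    refine LinearMap.ext fun v => ?_
    exact (F.par_map (show M ⟶ M from x) v).symm
  have h4 : IsNilpotent ((F.par M : Module.End K (F.V M)) * F.toEnd M x) :=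
    h3.symm.isNilpotent_mul_left ⟨n, h2⟩
  have h5 := LinearMap.isNilpotent_trace_of_isNilpotent h4
  have h6 := trL_eq F hS x
  change ((trL hS M x : ℚ) : K) = LinearMap.trace K (F.V M)
    ((F.par M : Module.End K (F.V M)) * F.toEnd M x) at h6
  rw [h5.eq_zero] at h6
  change trL hS M x = 0
  exact_mod_cast h6

include hS hD in
lemma finite_RP : FiniteDimensional ℚ (RP (isTensorIdeal_kerF F) M) := by
  classical
  have hfg : (Submodule.span K (Set.range (F.toEnd M))).FG := IsNoetherian.noetherian _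
  obtain ⟨T, hT, hspan⟩ := (Submodule.fg_span_iff_fg_span_finset_subset _).1 hfg
  choose b hb using fun t : T => hT t.2
  let Φ : RP (isTensorIdeal_kerF F) M →ₗ[ℚ] (T → ℚ) :=
    { toFun := fun x t => tF hS M (x * mk (isTensorIdeal_kerF F) M (b t))
      map_add' := by
        intro x y
        funext t
        rw [Pi.add_apply, add_mul, map_add]
      map_smul' := by
        intro q x
        funext t
        rw [RingHom.id_apply, Pi.smul_apply, smul_mul_assoc, map_smul] }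
  refine FiniteDimensional.of_injective Φ ?_
  rw [injective_iff_map_eq_zero]
  intro x hx
  apply tF_nondeg hS hD
  intro y
  obtain ⟨x, rfl⟩ := Ideal.Quotient.mk_surjective x
  obtain ⟨y, rfl⟩ := Ideal.Quotient.mk_surjective y
  -- the subspace of the linear maps orthogonal to `x`
  let ψ : Module.End K (F.V M) →ₗ[K] K :=
    { toFun := fun A => LinearMap.trace K (F.V M) ((F.par M : Module.End K (F.V M)) *
        (F.toEnd M x * A))
      map_add' := by
        intro A B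
        rw [mul_add, mul_add, map_add]
      map_smul' := by
        intro c A
        rw [mul_smul_comm, mul_smul_comm, map_smul, RingHom.id_apply] }
  have h1 : ∀ z : End M, ψ (F.toEnd M z) = ((trL hS M (x * z) : ℚ) : K) := by
    intro z
    rw [trL_eq F hS, map_mul]
    rfl
  have h2 : Submodule.span K (Set.range (F.toEnd M)) ≤ LinearMap.ker ψ := by
    rw [hspan, Submodule.span_le]
    intro t ht
    have h3 := congrFun hx ⟨t, ht⟩
    have h4 : tF hS M (mk (isTensorIdeal_kerF F) M x * mk (isTensorIdeal_kerF F) M (b ⟨t, ht⟩)) =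
      0 := h3
    rw [← map_mul, tF_mk] at h4
    have h5 := h1 (b ⟨t, ht⟩)
    rw [hb, h4, Rat.cast_zero] at h5
    exact h5
  have h6 : ψ (F.toEnd M y) = 0 := h2 (Submodule.subset_span ⟨y, rfl⟩)
  rw [h1] at h6
  rw [← map_mul]
  change trL hS M (x * y) = 0
  exact_mod_cast h6

end ring

/-- Under the standard conjecture `D` a morphism with injective realisation has a left inverse up
to homological equivalence. -/
theorem exists_left_inverse (hunit : ∀ f : 𝟙_ 𝒜 ⟶ 𝟙_ 𝒜, ∃ q : ℚ, f = q • 𝟙 (𝟙_ 𝒜)) {M N : 𝒜}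
    (hD : DFor F (M ⊗ Mᘁ)) (hD' : DFor F (N ⊗ Mᘁ)) (f : M ⟶ N)
    (hf : Function.Injective (F.map f)) : ∃ g : N ⟶ M, F.Inv (f ≫ g - 𝟙 M) := by
  have hS := scalars F hunit
  have hfin := finite_RP hS hD
  have hss : IsSemisimpleRing (RP (isTensorIdeal_kerF F) M) :=
    isSemisimpleRing (tF hS M) (tF_nilpotent hS) (tF_nondeg hS hD)
  -- the left ideal of the `f ≫ g`
  let L : Ideal (RP (isTensorIdeal_kerF F) M) :=
    { carrier := {x | ∃ g : N ⟶ M, mk (isTensorIdeal_kerF F) M (show End M from f ≫ g) = x}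
      zero_mem' := ⟨0, by
        have : (show End M from f ≫ (0 : N ⟶ M)) = 0 := comp_zero
        rw [this, map_zero]⟩
      add_mem' := by
        rintro _ _ ⟨g, rfl⟩ ⟨h, rfl⟩
        refine ⟨g + h, ?_⟩
        rw [← map_add]
        congr 1
        exact Preadditive.comp_add _ _ _ _ _ _
      smul_mem' := by
        rintro y _ ⟨g, rfl⟩
        obtain ⟨y, rfl⟩ := Ideal.Quotient.mk_surjective y
        refine ⟨g ≫ (show M ⟶ M from y), ?_⟩
        rw [smul_eq_mul]
        refine Eq.trans ?_ (map_mul (mk (isTensorIdeal_kerF F) M) y (show End M from f ≫ g))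
        congr 1
        exact (Category.assoc _ _ _).symm }
  obtain ⟨e, ⟨g, hg⟩, he⟩ := exists_idem L
  refine ⟨g, ?_⟩
  -- `(1 - e) ≫ f` is numerically trivial
  have h1 : F.Inv ((f ≫ g - 𝟙 M) ≫ f) := by
    apply inv_of_tr F hD'
    intro h
    have h2 := he _ ⟨h, rfl⟩
    rw [← hg, ← map_mul, ← sub_eq_zero, ← map_sub] at h2
    have h3 : (((f ≫ g - 𝟙 M) ≫ f) ≫ h : M ⟶ M) ∈ kerF F M M := by
      have h4 := mk_eq_zero.1 h2
      have e1 : ((f ≫ g - 𝟙 M) ≫ f) ≫ h = (f ≫ g) ≫ (f ≫ h) - f ≫ h := by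
        simp only [Preadditive.sub_comp, Category.id_comp, Category.assoc]
      rw [e1]
      exact h4
    have h5 := trL_of_mem hS (isTensorIdeal_kerF F) (unit_notMem_kerF F)
      (f := (show End M from ((f ≫ g - 𝟙 M) ≫ f) ≫ h)) h3
    have h6 := trL_spec hS (show End M from ((f ≫ g - 𝟙 M) ≫ f) ≫ h)
    rw [h5, zero_smul] at h6
    exact h6
  intro x
  apply hf
  have h7 := h1 x
  rw [F.map_comp] at h7
  rw [h7, _root_.map_zero]

/-- The realisation detects isomorphisms. -/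
def Conservative : Prop :=
  ∀ (M N : 𝒜) (f : M ⟶ N), Function.Bijective (F.map f) → IsIso f

/-- Each morphism with injective realisation has a left inverse. -/
def InjectiveSplit : Prop :=
  ∀ (M N : 𝒜) (f : M ⟶ N), Function.Injective (F.map f) → ∃ g : N ⟶ M, f ≫ g = 𝟙 M

theorem injectiveSplit_iff (hunit : ∀ f : 𝟙_ 𝒜 ⟶ 𝟙_ 𝒜, ∃ q : ℚ, f = q • 𝟙 (𝟙_ 𝒜)) :
    InjectiveSplit F ↔ (∀ E : 𝒜, DFor F E) ∧ Conservative F := by
  constructor
  · intro h
    refine ⟨?_, ?_⟩
    · intro E u hu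
      by_contra hcon
      have hinj : Function.Injective (F.map u) := by
        rw [injective_iff_map_eq_zero]
        intro x hx
        by_contra hx0
        apply hcon
        obtain ⟨c, rfl⟩ := F.span_one x
        have hc : c ≠ 0 := by
          rintro rfl
          exact hx0 (zero_smul _ _)
        have h1 : F.map u F.one = 0 := by
          rw [_root_.map_smul] at hx
          exact (smul_eq_zero.1 hx).resolve_left hc
        intro y
        obtain ⟨d, rfl⟩ := F.span_one y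
        rw [_root_.map_smul, h1, smul_zero]
      obtain ⟨v, hv⟩ := h _ _ u hinj
      apply (scalars F hunit).ne
      rw [← hv, hu v]
    · intro M N f hf
      obtain ⟨g, hg⟩ := h M N f hf.1
      have h1 : ∀ x, F.map g (F.map f x) = x := by
        intro x
        rw [← F.map_comp, hg, F.map_id]
      have h2 : Function.Injective (F.map g) := by
        intro x y hxy
        obtain ⟨x, rfl⟩ := hf.2 x
        obtain ⟨y, rfl⟩ := hf.2 y
        rw [h1, h1] at hxy
        rw [hxy]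
      obtain ⟨k, hk⟩ := h N M g h2
      have h3 : f = k := by
        calc f = f ≫ (g ≫ k) := by rw [hk, Category.comp_id]
          _ = k := by rw [← Category.assoc, hg, Category.id_comp]
      exact ⟨g, hg, by rw [h3, hk]⟩
  · rintro ⟨hD, hC⟩ M N f hf
    obtain ⟨g, hg⟩ := exists_left_inverse F hunit (hD _) (hD _) f hf
    have h1 : ∀ x, F.map (f ≫ g) x = x := by
      intro x
      have := hg x
      rw [F.map_sub', F.map_id, sub_eq_zero] at this
      exact this
    have h2 : Function.Bijective (F.map (f ≫ g)) := by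
      refine ⟨fun x y hxy => ?_, fun x => ⟨x, h1 x⟩⟩
      rwa [h1, h1] at hxy
    have h3 := hC _ _ (f ≫ g) h2
    exact ⟨g ≫ inv (f ≫ g), by rw [← Category.assoc, IsIso.hom_inv_id]⟩

/-- For a Kimura-finite object `M` the standard conjecture `D` suffices. -/
theorem split_of_kimura (hunit : ∀ f : 𝟙_ 𝒜 ⟶ 𝟙_ 𝒜, ∃ q : ℚ, f = q • 𝟙 (𝟙_ 𝒜)) {M N : 𝒜}
    (hM : KimuraFinite M) (hD : DFor F (M ⊗ Mᘁ)) (hD' : DFor F (N ⊗ Mᘁ)) (f : M ⟶ N)
    (hf : Function.Injective (F.map f)) : ∃ g : N ⟶ M, f ≫ g = 𝟙 M := by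
  obtain ⟨g, hg⟩ := exists_left_inverse F hunit hD hD' f hf
  obtain ⟨n, hn⟩ := F.nilp hunit hM
  have h1 : IsNilpotent (show End M from f ≫ g - 𝟙 M) := by
    refine ⟨n, ?_⟩
    have h2 := hn (List.replicate n (show End M from f ≫ g - 𝟙 M)) (fun x hx => by
      rw [List.eq_of_mem_replicate hx]
      exact hg) (List.length_replicate)
    rwa [List.prod_replicate] at h2
  have h3 := h1.isUnit_add_one
  have h4 : (show End M from f ≫ g - 𝟙 M) + 1 = (show End M from f ≫ g) := by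
    change f ≫ g - 𝟙 M + 𝟙 M = f ≫ g
    abel
  rw [h4] at h3
  obtain ⟨U, hU⟩ := h3
  refine ⟨g ≫ (show M ⟶ M from (↑U⁻¹ : End M)), ?_⟩
  have h5 : (↑U⁻¹ : End M) * (show End M from f ≫ g) = 1 := by
    rw [← hU, Units.inv_mul]
  rw [← Category.assoc]
  exact h5

end

end Pool.Agent.TH829.Inj
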