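import Pool.Agent.TH829.Inj.Alg
import Pool.Agent.TH829.Rig.Dies
import Pool.Agent.TH90.Kim.Light

/-!
# Traces of realisations
-/

set_option autoImplicit false

open CategoryTheory MonoidalCategory Limits BraidedCategory TensorProduct

universe u v w

namespace Pool.Agent.TH829.Inj

open Pool.Agent.TH90.AB Pool.Agent.TH90.Kim
open Pool.Agent.TH829.Rig
open Pool.Agent.TH829.Ten (Family IsTensorIdeal)

set_option linter.unusedSectionVars false

noncomputable section

variable {𝒜 : Type u} [Category.{v} 𝒜] [MonoidalCategory 𝒜] [SymmetricCategory 𝒜]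
  [Preadditive 𝒜] [MonoidalPreadditive 𝒜] [Linear ℚ 𝒜] [MonoidalLinear ℚ 𝒜]
  {K : Type w} [Field K] [CharZero K] (F : Realisation 𝒜 K)

/-- The ideal of the morphisms with realisation zero. -/
def kerF : Family 𝒜 := fun X Y =>
  { carrier := {f | F.Inv f}
    zero_mem' := fun x => F.map_zero' x
    add_mem' := by
      intro a b ha hb x
      rw [F.map_add, ha x, hb x, add_zero]
    smul_mem' := by
      intro q a ha x
      rw [F.map_smul, ha x, smul_zero] }

lemma mem_kerF {X Y : 𝒜} {f : X ⟶ Y} : f ∈ kerF F X Y ↔ F.Inv f := Iff.rfl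

lemma isTensorIdeal_kerF : IsTensorIdeal (kerF F) where
  comp_left g f hf := F.inv_comp_right g hf
  comp_right g hf := F.inv_comp_left g hf
  whisker_left Z X Y f hf := by
    intro z
    obtain ⟨n, a, b, rfl⟩ := F.exists_sum z
    rw [map_sum]
    refine Finset.sum_eq_zero fun i _ => ?_
    rw [F.whiskerLeft, (hf : F.Inv f), _root_.map_zero]
  whisker_right Z X Y f hf := Realisation.Inv.whiskerRight F hf Z

lemma unit_notMem_kerF : 𝟙 (𝟙_ 𝒜) ∉ kerF F (𝟙_ 𝒜) (𝟙_ 𝒜) := by
  intro h
  have := (h : F.Inv (𝟙 (𝟙_ 𝒜))) F.one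
  rw [F.map_id] at this
  exact F.one_ne this

include F in
lemma scalars (hunit : ∀ f : 𝟙_ 𝒜 ⟶ 𝟙_ 𝒜, ∃ q : ℚ, f = q • 𝟙 (𝟙_ 𝒜)) : Scalars 𝒜 :=
  ⟨hunit, fun h => unit_notMem_kerF F (by rw [h]; exact Submodule.zero_mem _)⟩

variable [hdual : ∀ X : 𝒜, HasRightDual X]

/-- The contraction of a linear map. -/
lemma contract_lin (N : 𝒜) {n : ℕ} (a : Fin n → F.V N) (b : Fin n → F.V Nᘁ)
    (h : F.map (η_ N Nᘁ) F.one = ∑ i, F.ext (a i) (b i)) (A : F.V N →ₗ[K] F.V N) :
    ∑ i, F.map (ev N) (F.ext (A (a i)) (b i)) =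
      (LinearMap.trace K (F.V N) (F.par N ∘ₗ A)) • F.one := by
  have hc : ∀ (i : Fin n) (v : F.V N), ∃ c : K, F.map (ε_ N Nᘁ) (F.ext (b i) v) = c • F.one :=
    fun i v => F.span_one _
  choose c hc using hc
  have inj : ∀ x y : K, x • F.one = y • F.one → x = y := fun x y hxy =>
    smul_left_injective K F.one_ne hxy
  let φ : Fin n → Module.Dual K (F.V N) := fun i =>
    { toFun := c i
      map_add' := by
        intro x y
        apply inj
        rw [← hc, add_smul, ← hc, ← hc, _root_.map_add, _root_.map_add]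
      map_smul' := by
        intro r x
        apply inj
        rw [← hc, _root_.map_smul, _root_.map_smul, hc, smul_smul]
        rfl }
  have hz : ∀ v : F.V N, ∑ i, φ i v • a i = v := by
    intro v
    have e1 := ExactPairing.evaluation_coevaluation N Nᘁ
    have e2 := congrArg (fun f => F.map f (F.ext F.one v)) e1
    simp only [F.map_comp, F.whiskerRight, F.left_unit] at e2
    rw [h, map_sum, LinearMap.sum_apply, map_sum, map_sum] at e2
    simp only [F.assoc, F.whiskerLeft, hc, _root_.map_smul] at e2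
    have e3 := congrArg (F.map (ρ_ N).hom) e2
    rw [map_sum] at e3
    simp only [_root_.map_smul, F.right_unit] at e3
    rw [← F.map_comp, Iso.inv_hom_id, F.map_id] at e3
    exact e3
  have hid : F.par N ∘ₗ A = ∑ i, dualTensorHom K _ _ (φ i ⊗ₜ (F.par N (A (a i)))) := by
    refine LinearMap.ext fun v => ?_
    rw [LinearMap.sum_apply]
    simp only [dualTensorHom_apply, LinearMap.comp_apply]
    conv_lhs => rw [← hz v]
    simp only [map_sum, _root_.map_smul]
  have ht : LinearMap.trace K (F.V N) (F.par N ∘ₗ A) = ∑ i, φ i (F.par N (A (a i))) := by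
    rw [hid, map_sum]
    refine Finset.sum_congr rfl fun i _ => ?_
    rw [LinearMap.trace_eq_contract_apply]
    simp
  rw [ht, Finset.sum_smul]
  refine Finset.sum_congr rfl fun i _ => ?_
  have e5 := F.ev_par (F.par N (A (a i))) (b i)
  rw [F.par_par] at e5
  rw [e5, hc]
  rfl

/-- The trace of an endomorphism is the supertrace of its realisation. -/
lemma trL_eq (hS : Scalars 𝒜) {M : 𝒜} (g : End M) :
    ((trL hS M g : ℚ) : K) = LinearMap.trace K (F.V M) (F.par M ∘ₗ F.toEnd M g) := by
  obtain ⟨n, a, b, h⟩ := F.exists_sum (F.map (η_ M Mᘁ) F.one)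
  apply F.unit_inj (trL_spec hS g)
  rw [F.map_tr (show M ⟶ M from g) a b h]
  exact contract_lin F M a b h (F.toEnd M g)

end

end Pool.Agent.TH829.Inj
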